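import Pool.Agent.H25.CFL.Targets

/-!
# MP_e37c09_lc, the cofinality law: row TG
-/

open Ordinal Cardinal Order Set
open scoped ZFSet

universe u

namespace Pool.Agent.H91.CFL

open _root_.HD Pool.Agent.H25.CFL

/-- A club set remains a club set if the elements up to `y` are removed. -/
theorem clb_above {ρ y : Ordinal.{u}} {C : Set Ordinal.{u}} (hC : Clb ρ C) (hy : y < ρ) :
    Clb ρ (C ∩ Ioi y) := by
  refine ⟨fun a ha => ?_, fun x hx h0 h => ?_⟩
  · obtain ⟨b, hb, hab, hbC⟩ := hC.unb (max a y) (max_lt ha hy)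
    exact ⟨b, hb, lt_of_le_of_lt (le_max_left _ _) hab, hbC, lt_of_le_of_lt (le_max_right _ _) hab⟩
  · refine ⟨hC.cls x hx h0 fun z hz => ?_, ?_⟩
    · obtain ⟨w, hw, hzw, hwC⟩ := h z hz
      exact ⟨w, hw, hzw, hwC.1⟩
    · obtain ⟨w, hw, _, hwC⟩ := h 0 h0
      exact lt_trans hwC.2 hw

/-- Row TG. -/
theorem pf_TG (hKD : T_KD.{u}) (hVC : T_VC.{u}) : T_TG.{u} := by
  intro D g hD hDg y hy
  have hD0 : ℵ₀ ≤ D := hD.1.aleph0_le
  have hyg : y.card < g := Cardinal.lt_ord.1 hy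
  have hm : max D y.card < g := max_lt hDg hyg
  have hKreg : (succ (max D y.card)).IsRegular :=
    Cardinal.isRegular_succ (le_trans hD0 (le_max_left _ _))
  have hDK : D < succ (max D y.card) := lt_of_le_of_lt (le_max_left _ _) (lt_succ _)
  have hyK : y < (succ (max D y.card)).ord :=
    Cardinal.lt_ord.2 (lt_of_le_of_lt (le_max_right _ _) (lt_succ _))
  have hKg : (succ (max D y.card)).ord ≤ g.ord := Cardinal.ord_le_ord.2 (succ_le_of_lt hm)
  obtain ⟨C, hC, hCI⟩ := hKD D _ hD hKreg hDK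
  have hcof : (succ (max D y.card)).ord.cof = succ (max D y.card) := hKreg.cof_ord
  have hpos := hVC ℵ₀ (succ (max D y.card)).ord Cardinal.isRegular_aleph0 (by
    rw [hcof]
    exact lt_of_le_of_lt hD0 hDK)
  obtain ⟨b, hb, hbC, -, hcf⟩ := hpos _ (clb_above hC hyK)
  exact ⟨b, hbC.2, lt_of_lt_of_le hb hKg, (hCI b hbC.1 hb).2.1, Cardinal.ord_injective hcf⟩

end Pool.Agent.H91.CFL
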