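import Pool.Agent.H25.CFL.Targets

/-!
# MP_e37c09_lc, the cofinality law: row U2
-/

open Ordinal Cardinal Order Set
open scoped ZFSet

universe u

namespace Pool.Agent.H91.CFL

open _root_.HD Pool.Agent.H25.CFL

/-- Fewer than `cof v` ordinals below `v` are bounded below `v`. -/
theorem bdd_of_lt_cof {v τ : Ordinal.{u}} (hτ : τ.card < v.cof)
    (g : Ordinal.{u} → Ordinal.{u}) (hg : ∀ i < τ, g i < v) : ∃ b < v, ∀ i < τ, g i ≤ b := by
  refine ⟨⨆ t : τ.ToType, g (Ordinal.ToType.mk.symm t).1,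
    Ordinal.iSup_lt_of_lt_cof (by rwa [Cardinal.mk_toType]) fun t =>
      hg _ (Ordinal.ToType.mk.symm t).2, fun i hi => ?_⟩
  have h1 := le_ciSup (Ordinal.bddAbove_of_small
    (s := range fun t : τ.ToType => g (Ordinal.ToType.mk.symm t).1)) (Ordinal.ToType.mk ⟨i, hi⟩)
  simpa using h1

/-- Row U2. -/
theorem pf_U2 (hVG : T_VG.{u}) (_hVA : T_VA.{u}) (hCI : T_CI.{u}) : T_U2.{u} := by
  intro M lam h c hst v hv hnull hpos
  by_contra hcon
  rw [not_le] at hcon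
  have hM0 : ℵ₀ ≤ M := hst.mreg.aleph0_le
  have hlam : ℵ₀ < lam.cof := lt_of_le_of_lt hM0 hst.mlt
  obtain ⟨B, hB, hBlt, e, he⟩ := hVG lam hst.reg.1
  have hv0 : 0 < v := by
    rcases eq_or_ne v 0 with h0 | h0
    · rw [h0, Ordinal.cof_zero] at hcon
      exact absurd hcon (not_lt_of_ge (Cardinal.zero_le _))
    · exact pos_iff_ne_zero.2 h0
  obtain ⟨u, hu, hub⟩ := bdd_of_lt_cof (v := v) (τ := lam.cof.ord)
    (by rw [Cardinal.card_ord]; exact hcon) (fun i => if h (e i) < v then h (e i) else 0)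
    (fun i _ => by
      split_ifs with h1
      · exact h1
      · exact hv0)
  have hnu := hnull u hu
  unfold Pos at hnu
  push Not at hnu
  obtain ⟨C, hC, hC1⟩ := hnu
  obtain ⟨x, hx, hxC, ⟨hxl, hxv⟩, hcf⟩ := hpos _ (hCI lam C B hlam hC hB)
  obtain ⟨a, ha, hae⟩ := he x hxC.2
  refine hC1 x hx hxC.1 ⟨hxl, ?_⟩ hcf
  have h2 := hub a ha
  rw [hae, if_pos hxv] at h2
  exact h2

end Pool.Agent.H91.CFL
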