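import Pool.Agent.H91.CFL.U2

/-!
# MP_e37c09_lc, the cofinality law: row L1
-/

open Ordinal Cardinal Order Set
open scoped ZFSet

universe u

namespace Pool.Agent.H91.CFL

open _root_.HD Pool.Agent.H25.CFL

/-- Monotonicity of `PkHOD` in the bound for the number of elements. -/
theorem pkHOD_mono {κ κ' lam : Ordinal.{u}} (h : κ ≤ κ') {x : ZFSet.{u}} (hx : x ∈ PkHOD κ lam) :
    x ∈ PkHOD κ' lam := by
  unfold PkHOD at hx ⊢
  rw [ZFSet.mem_sep] at hx ⊢
  obtain ⟨h1, τ, hτ, h2⟩ := hx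
  exact ⟨h1, τ, lt_of_lt_of_le hτ h, h2⟩

/-- An ordinal below `lam` is an element of `PkHOD lam lam`. -/
theorem ord_mem_pkHOD {b lam : Ordinal.{u}} (h : b < lam) : b.toZFSet ∈ PkHOD lam lam := by
  unfold PkHOD
  rw [ZFSet.mem_sep, ZFSet.mem_powerset]
  have hR : DR fun x y : Ordinal.{u} => y = x := DO.eq 1 0
  refine ⟨fun z hz => ?_, b, h, rs b b (fun x y => y = x), hod_rs hR b b,
    ⟨fun p hp => ?_, fun z hz => ?_⟩, fun z hz => ?_⟩
  · obtain ⟨a, ha, rfl⟩ := mem_toZFSet_iff.1 hz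
    exact toZFSet_mem_toZFSet_iff.2 (ha.trans h)
  · obtain ⟨a, ha, b', hb, -, rfl⟩ := mem_rs.1 hp
    exact ZFSet.pair_mem_prod.2 ⟨toZFSet_mem_toZFSet_iff.2 ha, toZFSet_mem_toZFSet_iff.2 hb⟩
  · obtain ⟨a, ha, rfl⟩ := mem_toZFSet_iff.1 hz
    refine ⟨a.toZFSet, pair_mem_rs.2 ⟨ha, ha, rfl⟩, fun y hy => ?_⟩
    obtain ⟨a', ha', b', hb', hab', he⟩ := mem_rs.1 hy
    obtain ⟨he1, rfl⟩ := ZFSet.pair_injective he
    have := toZFSet_injective he1
    subst this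
    rw [hab']
  · obtain ⟨a, ha, rfl⟩ := mem_toZFSet_iff.1 hz
    exact ⟨a, ha, pair_mem_rs.2 ⟨ha, ha, rfl⟩⟩

/-- Row L1. -/
theorem pf_L1 (hU1 : T_U1.{u}) (hU2 : T_U2.{u}) (hU3 : T_U3.{u}) (hKT : T_KT.{u})
    (hKV : T_KV.{u}) (hDL : T_DL.{u}) (hVA : T_VA.{u}) : T_L1.{u} := by
  intro M lam h c hst
  have hM0 : ℵ₀ ≤ M := hst.mreg.aleph0_le
  have hlam : ℵ₀ < lam.cof := lt_of_le_of_lt hM0 hst.mlt
  by_cases hex : ∃ u < lam, Pos M.ord lam {x | IsSuccLimit x ∧ h x ≤ u}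
  · -- the least bound
    have hne : {u : Ordinal.{u} | u < lam ∧ Pos M.ord lam {x | IsSuccLimit x ∧ h x ≤ u}}.Nonempty :=
      hex
    obtain ⟨v, ⟨hv, hpos⟩, hmin⟩ : ∃ v, (v < lam ∧ Pos M.ord lam {x | IsSuccLimit x ∧ h x ≤ v}) ∧
        ∀ u < v, ¬ Pos M.ord lam {x | IsSuccLimit x ∧ h x ≤ u} := by
      refine ⟨sInf _, csInf_mem hne, fun u hu hP => ?_⟩
      have h1 := csInf_mem hne
      exact absurd (csInf_le (OrderBot.bddBelow _) (show u ∈ {u : Ordinal.{u} | u < lam ∧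
        Pos M.ord lam {x | IsSuccLimit x ∧ h x ≤ u}} from ⟨hu.trans h1.1, hP⟩)) (not_le_of_gt hu)
    obtain ⟨hposv, hle⟩ := hU1 M lam h c hst v hv hmin hpos
    have hge := hU2 M lam h c hst v hv hmin hposv
    have hcof : v.cof = lam.cof := le_antisymm hge hle
    refine ⟨v, hv.le, hcof, fun y hy => ?_, fun a hva hal hreg => ?_, fun A hA hτ => ?_⟩
    · -- unbounded
      have hd := pos_diff hVA hlam hposv (hmin y hy)
      obtain ⟨x, hx, -, hxS, hcf⟩ := hd univ ⟨fun a ha => ⟨succ a, hst.reg.1.succ_lt ha, lt_succ a,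
        trivial⟩, fun _ _ _ _ => trivial⟩
      have hxl : IsSuccLimit x := hxS.1.1
      refine ⟨h x, ?_, hxS.1.2, hst.hc.reg x hxl, ?_⟩
      · by_contra hn
        exact hxS.2 ⟨hxl, not_lt.1 hn⟩
      · rw [hst.hc.cof x hxl]
        exact Cardinal.ord_injective hcf
    · rcases eq_or_lt_of_le hva with he | hlt
      · rw [← he, hcof]
      · exact hKT M lam h c hst v hv hpos a hlt hal hreg
    · have hDS : DS {x | IsSuccLimit x ∧ h x < v} := by
        refine DO.and hDL ?_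
        refine (DO.exLtc (R := fun y w => y = h (w 0)) v
          (DO.s2 (X := fun x y => y = h x) hst.hc.dh 1 0)).congr fun w => ?_
        constructor
        · intro hh
          exact ⟨_, hh, rfl⟩
        · rintro ⟨y, hy, rfl⟩
          exact hy
      obtain ⟨x, hxS, hx, P, hP, hAP⟩ := hKV M lam h c hst {x | IsSuccLimit x ∧ h x < v} hDS
        (fun x hx => hx.1) hposv A hA hτ
      exact ⟨P, pkHOD_mono (succ_le_of_lt hxS.2) hP, hAP⟩
  · -- no bound
    push Not at hex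
    refine ⟨lam, le_rfl, rfl, fun y hy => hU3 M lam h c hst hex y hy,
      fun a hva hal _ => absurd hal (not_lt_of_ge hva), fun A hA hτ => ?_⟩
    obtain ⟨τ, hτ, e, he⟩ := hτ
    have h0 : 0 < lam := hst.reg.1.bot_lt
    obtain ⟨b, hb, hbe⟩ := bdd_of_lt_cof (v := lam) hτ (fun i => if e i < lam then e i else 0)
      (fun i _ => by
        split_ifs with h1
        · exact h1
        · exact h0)
    refine ⟨(succ b).toZFSet, ord_mem_pkHOD (hst.reg.1.succ_lt hb), fun a ha => ?_⟩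
    obtain ⟨i, hi, hie⟩ := he a ha
    have h1 := hbe i hi
    have h2 : a < lam := hA ha
    simp only [hie, if_pos h2] at h1
    exact toZFSet_mem_toZFSet_iff.2 (lt_succ_of_le h1)

end Pool.Agent.H91.CFL
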